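import Pool.Agent.Y300.LC.Stm

/-! LC-END: independence of the limit family. -/

set_option autoImplicit false

open PowerSeries Finset

namespace Pool.Agent.Y931.LC
open Pool.Agent.Y300.LC

/-- the residue class -/
def Sr (N r s : ℕ) : Set ℕ := {m | 4 * N < m ∧ m ≡ r [MOD N] ∧ m ≡ s [MOD (N - 1)]}

theorem Sr_inf {N : ℕ} (hN : 6 ≤ N) (r s : ℕ) : (Sr N r s).Infinite := by
  refine Set.infinite_of_forall_exists_gt fun a => ?_
  have co : Nat.Coprime N (N - 1) := by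
    have h1 : N = (N - 1) + 1 := by omega
    rw [h1, Nat.add_sub_cancel]
    simp
  obtain ⟨k, h1, h2⟩ := Nat.chineseRemainder co r s
  have hpos : 1 ≤ N * (N - 1) := Nat.mul_pos (by omega) (by omega)
  have hge : a + 4 * N + 1 ≤ N * (N - 1) * (a + 4 * N + 1) := Nat.le_mul_of_pos_left _ hpos
  refine ⟨k + N * (N - 1) * (a + 4 * N + 1), ⟨by omega, ?_, ?_⟩, by omega⟩
  · have : k + N * (N - 1) * (a + 4 * N + 1) = N * ((N - 1) * (a + 4 * N + 1)) + k := by ring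
    rw [this]
    exact (Nat.add_modEq_right_iff.2 (dvd_mul_right _ _)).trans h1
  · have : k + N * (N - 1) * (a + 4 * N + 1) = (N - 1) * (N * (a + 4 * N + 1)) + k := by ring
    rw [this]
    exact (Nat.add_modEq_right_iff.2 (dvd_mul_right _ _)).trans h2

section
variable {N : ℕ} {lf lg : ℕ → ℕ → ℂ}

/-- the hypothesis -/
def Hyp (N : ℕ) (lf lg : ℕ → ℕ → ℂ) : Prop :=
  ∀ m : ℕ, ∑ x ∈ If N, lf x.1 x.2 * wf N 0 x.1 x.2 m +
    ∑ x ∈ Ig N, lg x.1 x.2 * wg N 0 x.1 x.2 m = 0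

/-- class (r, 1), r <= N - 2 -/
theorem c_r1 (hc : S_CLS) (ht : S_RAT) (hN : 6 ≤ N) (h : Hyp N lf lg) {r : ℕ} (hr1 : 1 ≤ r)
    (hr2 : r ≤ N - 2) :
    lf (r + 1) 1 = 0 ∧ lg 2 r = 0 ∧ lg 1 r = 0 ∧ (r = 1 → lg N 1 = 0) := by
  have ht2 := (ht N (Sr N r 1) hN (Sr_inf hN r 1) fun m hm => hm.1).2.1
    (-((N : ℂ) - r) * lf (r + 1) 1) (-((N : ℂ) - 1 - (1 : ℕ)) * lg (1 + 1) r) (lg 1 r)
    (if r = 1 then lg N 1 else 0) ?_
  · obtain ⟨h1, h2, h3, h4⟩ := ht2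
    have e1 : -((N : ℂ) - r) ≠ 0 := by
      rw [neg_ne_zero, sub_ne_zero]; exact_mod_cast (by omega : N ≠ r)
    have e2 : -((N : ℂ) - 1 - (1 : ℕ)) ≠ 0 := by
      rw [neg_ne_zero, sub_sub, sub_ne_zero]; exact_mod_cast (by omega : N ≠ 1 + 1)
    exact ⟨(mul_eq_zero.1 h1).resolve_left e1, (mul_eq_zero.1 h2).resolve_left e2, h3, fun hr => by
      rwa [if_pos hr] at h4⟩
  · rintro m ⟨m1, m2, m3⟩
    have e := hc N lf lg hN h r 1 m hr1 (by omega) le_rfl (by omega) m1 m2 m3 _ _ _ rfl rfl rfl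
    rw [if_pos (by omega : r ≤ N - 2 ∧ r + 1 ≤ N), if_neg (by omega : ¬ r = N - 1),
      if_pos (by omega : 1 ≤ N - 2 ∧ r + 1 ≤ N ∧ ¬(r = 1 ∧ 1 = N - 2)),
      if_neg (by omega : ¬ 1 = N - 2), if_pos rfl, if_pos (by omega : r ≠ N - 1)] at e
    refine Eq.trans ?_ e
    split_ifs <;> ring

/-- generic class -/
theorem c_gen (hc : S_CLS) (ht : S_RAT) (hN : 6 ≤ N) (h : Hyp N lf lg) {r s : ℕ} (hr1 : 1 ≤ r)
    (hs1 : 2 ≤ s) (hs2 : s ≤ N - 3) (hrs : r + s ≤ N) :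
    lf (r + 1) s = 0 ∧ lg (s + 1) r = 0 := by
  have ht2 := (ht N (Sr N r s) hN (Sr_inf hN r s) fun m hm => hm.1).1
    (-((N : ℂ) - r) * lf (r + 1) s) (-((N : ℂ) - 1 - s) * lg (s + 1) r) ?_
  · obtain ⟨h1, h2⟩ := ht2
    have e1 : -((N : ℂ) - r) ≠ 0 := by
      rw [neg_ne_zero, sub_ne_zero]; exact_mod_cast (by omega : N ≠ r)
    have e2 : -((N : ℂ) - 1 - s) ≠ 0 := by
      rw [neg_ne_zero, sub_sub, sub_ne_zero]; exact_mod_cast (by omega : N ≠ 1 + s)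
    exact ⟨(mul_eq_zero.1 h1).resolve_left e1, (mul_eq_zero.1 h2).resolve_left e2⟩
  · rintro m ⟨m1, m2, m3⟩
    have e := hc N lf lg hN h r s m hr1 (by omega) (by omega) (by omega) m1 m2 m3 _ _ _ rfl rfl rfl
    rw [if_pos (by omega : r ≤ N - 2 ∧ r + s ≤ N), if_neg (by omega : ¬ r = N - 1),
      if_pos (by omega : s ≤ N - 2 ∧ r + s ≤ N ∧ ¬(r = 1 ∧ s = N - 2)),
      if_neg (by omega : ¬ s = N - 2), if_neg (by omega : ¬ s = 1)] at e
    refine Eq.trans ?_ e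
    ring

/-- class (1, N - 2) -/
theorem c_3 (hc : S_CLS) (ht : S_RAT) (hN : 6 ≤ N) (h : Hyp N lf lg) :
    lf 2 (N - 2) = 0 ∧ lg 0 1 = 0 ∧ lg 0 (N + 1) = 0 := by
  have ht2 := (ht N (Sr N 1 (N - 2)) hN (Sr_inf hN 1 (N - 2)) fun m hm => hm.1).2.2.1
    (-((N : ℂ) - (1 : ℕ)) * lf (1 + 1) (N - 2)) (N * lg 0 1) (N * lg 0 (N + 1)) ?_
  · obtain ⟨h1, h2, h3⟩ := ht2
    have e1 : -((N : ℂ) - (1 : ℕ)) ≠ 0 := by
      rw [neg_ne_zero, sub_ne_zero]; exact_mod_cast (by omega : N ≠ 1)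
    have e2 : (N : ℂ) ≠ 0 := by exact_mod_cast (by omega : N ≠ 0)
    exact ⟨(mul_eq_zero.1 h1).resolve_left e1, (mul_eq_zero.1 h2).resolve_left e2,
      (mul_eq_zero.1 h3).resolve_left e2⟩
  · rintro m ⟨m1, m2, m3⟩
    have e := hc N lf lg hN h 1 (N - 2) m le_rfl (by omega) (by omega) (by omega) m1 m2 m3
      _ _ _ rfl rfl rfl
    rw [if_pos (by omega : 1 ≤ N - 2 ∧ 1 + (N - 2) ≤ N), if_neg (by omega : ¬ 1 = N - 1),
      if_neg (by omega : ¬ (N - 2 ≤ N - 2 ∧ 1 + (N - 2) ≤ N ∧ ¬(1 = 1 ∧ N - 2 = N - 2))),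
      if_pos rfl, if_pos rfl, if_neg (by omega : ¬ N - 2 = 1)] at e
    refine Eq.trans ?_ e
    ring

/-- class (2, N - 2) -/
theorem c_4 (hc : S_CLS) (ht : S_RAT) (hN : 6 ≤ N) (h : Hyp N lf lg) :
    lf 3 (N - 2) = 0 ∧ lg (N - 1) 2 = 0 ∧ lg 0 2 = 0 := by
  have ht2 := (ht N (Sr N 2 (N - 2)) hN (Sr_inf hN 2 (N - 2)) fun m hm => hm.1).2.2.2.1
    (-((N : ℂ) - (2 : ℕ)) * lf (2 + 1) (N - 2))
    (-((N : ℂ) - 1 - (N - 2 : ℕ)) * lg (N - 2 + 1) 2) (N * lg 0 2) ?_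
  · obtain ⟨h1, h2, h3⟩ := ht2
    have e1 : -((N : ℂ) - (2 : ℕ)) ≠ 0 := by
      rw [neg_ne_zero, sub_ne_zero]; exact_mod_cast (by omega : N ≠ 2)
    have e2 : -((N : ℂ) - 1 - (N - 2 : ℕ)) ≠ 0 := by
      rw [neg_ne_zero, sub_sub, sub_ne_zero]; exact_mod_cast (by omega : N ≠ 1 + (N - 2))
    have e3 : (N : ℂ) ≠ 0 := by exact_mod_cast (by omega : N ≠ 0)
    have h2' := (mul_eq_zero.1 h2).resolve_left e2
    rw [show N - 2 + 1 = N - 1 by omega] at h2'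
    exact ⟨(mul_eq_zero.1 h1).resolve_left e1, h2', (mul_eq_zero.1 h3).resolve_left e3⟩
  · rintro m ⟨m1, m2, m3⟩
    have e := hc N lf lg hN h 2 (N - 2) m (by omega) (by omega) (by omega) (by omega) m1 m2 m3
      _ _ _ rfl rfl rfl
    rw [if_pos (by omega : 2 ≤ N - 2 ∧ 2 + (N - 2) ≤ N), if_neg (by omega : ¬ 2 = N - 1),
      if_pos (by omega : N - 2 ≤ N - 2 ∧ 2 + (N - 2) ≤ N ∧ ¬(2 = 1 ∧ N - 2 = N - 2)),
      if_pos rfl, if_neg (by omega : ¬ 2 = 1), if_neg (by omega : ¬ N - 2 = 1)] at e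
    refine Eq.trans ?_ e
    ring

theorem exists_mem (hN : 6 ≤ N) (r s : ℕ) : ∃ m, m ∈ Sr N r s := (Sr_inf hN r s).nonempty

theorem ne_facts {m : ℕ} (hN : 6 ≤ N) (hm : 4 * N < m) : ((m : ℂ) - N) ≠ 0 ∧
    ((m : ℂ) - N + 1) ≠ 0 ∧ ((m : ℂ) + 1) ≠ 0 ∧ ((m : ℂ) - 1) ≠ 0 ∧ (N : ℂ) ≠ 0 := by
  refine ⟨?_, ?_, ?_, ?_, ?_⟩
  · rw [sub_ne_zero]; exact_mod_cast (by omega : m ≠ N)
  · rw [sub_add_eq_add_sub, sub_ne_zero]; exact_mod_cast (by omega : m + 1 ≠ N)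
  · exact_mod_cast (by omega : m + 1 ≠ 0)
  · rw [sub_ne_zero]; exact_mod_cast (by omega : m ≠ 1)
  · exact_mod_cast (by omega : N ≠ 0)

/-- class (r, N - 2), r >= 3, r /= N - 1 -/
theorem c_5 (hc : S_CLS) (hN : 6 ≤ N) (h : Hyp N lf lg) {r : ℕ} (hr1 : 3 ≤ r) (hr2 : r ≤ N)
    (hr3 : r ≠ N - 1) : lg 0 r = 0 := by
  obtain ⟨m, m1, m2, m3⟩ := exists_mem hN r (N - 2)
  obtain ⟨n1, n2, n3, n4, n5⟩ := ne_facts hN m1
  have e := hc N lf lg hN h r (N - 2) m (by omega) hr2 (by omega) (by omega) m1 m2 m3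
    _ _ _ rfl rfl rfl
  rw [if_neg (by omega : ¬ (r ≤ N - 2 ∧ r + (N - 2) ≤ N)), if_neg (by omega : ¬ r = N - 1),
    if_neg (by omega : ¬ (N - 2 ≤ N - 2 ∧ r + (N - 2) ≤ N ∧ ¬(r = 1 ∧ N - 2 = N - 2))),
    if_pos rfl, if_neg (by omega : ¬ r = 1), if_neg (by omega : ¬ N - 2 = 1)] at e
  have e' : (N : ℂ) / (((m : ℂ) + 1) * ((m : ℂ) - N + 1)) * lg 0 r = 0 := by
    refine Eq.trans ?_ e
    ring
  exact (mul_eq_zero.1 e').resolve_left (div_ne_zero n5 (mul_ne_zero n3 n2))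

/-- class (1, N - 1) -/
theorem c_6 (hc : S_CLS) (hN : 6 ≤ N) (h : Hyp N lf lg) : lf 2 (N - 1) = 0 := by
  obtain ⟨m, m1, m2, m3⟩ := exists_mem hN 1 (N - 1)
  obtain ⟨n1, n2, n3, n4, n5⟩ := ne_facts hN m1
  have e := hc N lf lg hN h 1 (N - 1) m (by omega) (by omega) (by omega) (by omega) m1 m2 m3
    _ _ _ rfl rfl rfl
  rw [if_pos (by omega : (1 ≤ N - 2 ∧ 1 + (N - 1) ≤ N)), if_neg (by omega : ¬ 1 = N - 1),
    if_neg (by omega : ¬ (N - 1 ≤ N - 2 ∧ 1 + (N - 1) ≤ N ∧ ¬(1 = 1 ∧ N - 1 = N - 2))),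
    if_neg (by omega : ¬ N - 1 = N - 2), if_neg (by omega : ¬ N - 1 = 1)] at e
  have e' : (-((N : ℂ) - (1 : ℕ)) / ((m : ℂ) - N)) * lf (1 + 1) (N - 1) = 0 := by
    refine Eq.trans ?_ e
    ring
  refine (mul_eq_zero.1 e').resolve_left (div_ne_zero ?_ n1)
  rw [neg_ne_zero, sub_ne_zero]; exact_mod_cast (by omega : N ≠ 1)

/-- class (N, 1) -/
theorem c_7 (hc : S_CLS) (hN : 6 ≤ N) (h : Hyp N lf lg) : lg 1 N = 0 := by
  obtain ⟨m, m1, m2, m3⟩ := exists_mem hN N 1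
  obtain ⟨n1, n2, n3, n4, n5⟩ := ne_facts hN m1
  have e := hc N lf lg hN h N 1 m (by omega) (by omega) (by omega) (by omega) m1 m2 m3
    _ _ _ rfl rfl rfl
  rw [if_neg (by omega : ¬ (N ≤ N - 2 ∧ N + 1 ≤ N)), if_neg (by omega : ¬ N = N - 1),
    if_neg (by omega : ¬ (1 ≤ N - 2 ∧ N + 1 ≤ N ∧ ¬(N = 1 ∧ 1 = N - 2))),
    if_neg (by omega : ¬ 1 = N - 2), if_pos rfl, if_pos (by omega : N ≠ N - 1),
    if_neg (by omega : ¬ N = 1)] at e
  have e' : (((m : ℂ) - 1) / ((m : ℂ) - N + 1) ^ 2) * lg 1 N = 0 := by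
    refine Eq.trans ?_ e
    ring
  exact (mul_eq_zero.1 e').resolve_left (div_ne_zero n4 (pow_ne_zero 2 n2))

/-- class (N - 1, 1) -/
theorem c_8 (hc : S_CLS) (ht : S_RAT) (hN : 6 ≤ N) (h : Hyp N lf lg) :
    lf 0 1 = 0 ∧ lf 0 N = 0 ∧ lg 2 (N - 1) = 0 := by
  have ht2 := (ht N (Sr N (N - 1) 1) hN (Sr_inf hN (N - 1) 1) fun m hm => hm.1).2.2.2.2.1
    (((N : ℂ) + 1) * lf 0 1) (((N : ℂ) + 1) * lf 0 N)
    (-((N : ℂ) - 1 - (1 : ℕ)) * lg (1 + 1) (N - 1)) ?_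
  · obtain ⟨h1, h2, h3⟩ := ht2
    have e1 : ((N : ℂ) + 1) ≠ 0 := by exact_mod_cast (by omega : N + 1 ≠ 0)
    have e2 : -((N : ℂ) - 1 - (1 : ℕ)) ≠ 0 := by
      rw [neg_ne_zero, sub_sub, sub_ne_zero]; exact_mod_cast (by omega : N ≠ 1 + 1)
    exact ⟨(mul_eq_zero.1 h1).resolve_left e1, (mul_eq_zero.1 h2).resolve_left e1,
      (mul_eq_zero.1 h3).resolve_left e2⟩
  · rintro m ⟨m1, m2, m3⟩
    have e := hc N lf lg hN h (N - 1) 1 m (by omega) (by omega) (by omega) (by omega) m1 m2 m3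
      _ _ _ rfl rfl rfl
    rw [if_neg (by omega : ¬ (N - 1 ≤ N - 2 ∧ N - 1 + 1 ≤ N)), if_pos rfl, if_pos rfl,
      if_neg (by omega : ¬ 1 = 2), if_neg (by omega : ¬ 2 ≤ 1), if_neg (by omega : ¬ 1 = 3),
      if_pos (by omega : (1 ≤ N - 2 ∧ N - 1 + 1 ≤ N ∧ ¬(N - 1 = 1 ∧ 1 = N - 2))),
      if_neg (by omega : ¬ 1 = N - 2), if_pos rfl, if_neg (by omega : ¬ (N - 1 ≠ N - 1)),
      if_neg (by omega : ¬ N - 1 = 1)] at e
    refine Eq.trans ?_ e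
    ring

/-- class (N - 1, 2) -/
theorem c_9 (hc : S_CLS) (ht : S_RAT) (hN : 6 ≤ N) (h : Hyp N lf lg) :
    lf 0 2 = 0 ∧ lf 0 (N + 1) = 0 ∧ lf 1 2 = 0 := by
  have ht2 := (ht N (Sr N (N - 1) 2) hN (Sr_inf hN (N - 1) 2) fun m hm => hm.1).2.2.2.2.2.1
    (((N : ℂ) + 1) * lf 0 2) (((N : ℂ) + 1) / 2 * lf 0 (N + 1)) (-lf 1 2) ?_
  · obtain ⟨h1, h2, h3⟩ := ht2
    have e1 : ((N : ℂ) + 1) ≠ 0 := by exact_mod_cast (by omega : N + 1 ≠ 0)
    exact ⟨(mul_eq_zero.1 h1).resolve_left e1,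
      (mul_eq_zero.1 h2).resolve_left (div_ne_zero e1 two_ne_zero), neg_eq_zero.1 h3⟩
  · rintro m ⟨m1, m2, m3⟩
    have e := hc N lf lg hN h (N - 1) 2 m (by omega) (by omega) (by omega) (by omega) m1 m2 m3
      _ _ _ rfl rfl rfl
    rw [if_neg (by omega : ¬ (N - 1 ≤ N - 2 ∧ N - 1 + 2 ≤ N)), if_pos rfl,
      if_neg (by omega : ¬ 2 = 1), if_pos rfl, if_pos le_rfl, if_neg (by omega : ¬ 2 = 3),
      if_neg (by omega : ¬ (2 ≤ N - 2 ∧ N - 1 + 2 ≤ N ∧ ¬(N - 1 = 1 ∧ 2 = N - 2))),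
      if_neg (by omega : ¬ 2 = N - 2), if_neg (by omega : ¬ 2 = 1)] at e
    refine Eq.trans ?_ e
    ring

/-- class (N - 1, 3) -/
theorem c_10 (hc : S_CLS) (ht : S_RAT) (hN : 6 ≤ N) (h : Hyp N lf lg) :
    lf 0 3 = 0 ∧ lf 1 3 = 0 ∧ lf 1 N = 0 := by
  have ht2 := (ht N (Sr N (N - 1) 3) hN (Sr_inf hN (N - 1) 3) fun m hm => hm.1).2.2.2.2.2.2.1
    (((N : ℂ) + 1) * lf 0 3) (-lf 1 3) (-(1 / (3 * ((N : ℂ) + 2)) * lf 1 N)) ?_
  · obtain ⟨h1, h2, h3⟩ := ht2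
    have e1 : ((N : ℂ) + 1) ≠ 0 := by exact_mod_cast (by omega : N + 1 ≠ 0)
    have e2 : ((N : ℂ) + 2) ≠ 0 := by exact_mod_cast (by omega : N + 2 ≠ 0)
    exact ⟨(mul_eq_zero.1 h1).resolve_left e1, neg_eq_zero.1 h2,
      (mul_eq_zero.1 (neg_eq_zero.1 h3)).resolve_left
        (one_div_ne_zero (mul_ne_zero three_ne_zero e2))⟩
  · rintro m ⟨m1, m2, m3⟩
    have e := hc N lf lg hN h (N - 1) 3 m (by omega) (by omega) (by omega) (by omega) m1 m2 m3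
      _ _ _ rfl rfl rfl
    rw [if_neg (by omega : ¬ (N - 1 ≤ N - 2 ∧ N - 1 + 3 ≤ N)), if_pos rfl,
      if_neg (by omega : ¬ 3 = 1), if_neg (by omega : ¬ 3 = 2), if_pos (by omega : 2 ≤ 3), if_pos rfl,
      if_neg (by omega : ¬ (3 ≤ N - 2 ∧ N - 1 + 3 ≤ N ∧ ¬(N - 1 = 1 ∧ 3 = N - 2))),
      if_neg (by omega : ¬ 3 = N - 2), if_neg (by omega : ¬ 3 = 1)] at e
    refine Eq.trans ?_ e
    ring

/-- class (N - 1, s) -/
theorem c_11 (hc : S_CLS) (ht : S_RAT) (hN : 6 ≤ N) (h : Hyp N lf lg) {s : ℕ} (hs1 : 4 ≤ s)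
    (hs2 : s ≤ N - 1) : lf 0 s = 0 ∧ lf 1 s = 0 ∧ (s = N - 2 → lg 0 (N - 1) = 0) := by
  have ht2 := (ht N (Sr N (N - 1) s) hN (Sr_inf hN (N - 1) s) fun m hm => hm.1).2.2.2.2.2.2.2
    (((N : ℂ) + 1) * lf 0 s) (-lf 1 s) (if s = N - 2 then (N : ℂ) * lg 0 (N - 1) else 0) ?_
  · obtain ⟨h1, h2, h3⟩ := ht2
    have e1 : ((N : ℂ) + 1) ≠ 0 := by exact_mod_cast (by omega : N + 1 ≠ 0)
    have e2 : (N : ℂ) ≠ 0 := by exact_mod_cast (by omega : N ≠ 0)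
    refine ⟨(mul_eq_zero.1 h1).resolve_left e1, neg_eq_zero.1 h2, fun hs => ?_⟩
    rw [if_pos hs] at h3
    exact (mul_eq_zero.1 h3).resolve_left e2
  · rintro m ⟨m1, m2, m3⟩
    have e := hc N lf lg hN h (N - 1) s m (by omega) (by omega) (by omega) (by omega) m1 m2 m3
      _ _ _ rfl rfl rfl
    rw [if_neg (by omega : ¬ (N - 1 ≤ N - 2 ∧ N - 1 + s ≤ N)), if_pos rfl,
      if_neg (by omega : ¬ s = 1), if_neg (by omega : ¬ s = 2), if_pos (by omega : 2 ≤ s),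
      if_neg (by omega : ¬ s = 3),
      if_neg (by omega : ¬ (s ≤ N - 2 ∧ N - 1 + s ≤ N ∧ ¬(N - 1 = 1 ∧ s = N - 2))),
      if_neg (by omega : ¬ s = 1), if_neg (by omega : ¬ N - 1 = 1)] at e
    refine Eq.trans ?_ e
    split_ifs <;> ring

end

theorem ind_all (hs : S_SOL) (hr : S_REL) (hc : S_CLS) (ht : S_RAT) : S_IND := by
  intro N lf lg hN h
  have hH : Hyp N lf lg := h
  -- all coefficients except three
  have kf : ∀ x ∈ If N, x ≠ (1, 0) → x ≠ (1, 1) → lf x.1 x.2 = 0 := by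
    rintro ⟨j, k⟩ hx hx0 hx1
    simp only [If, J, mem_filter, mem_product, mem_range] at hx
    obtain ⟨⟨⟨hj, hk⟩, hjk⟩, hx'⟩ := hx
    have hx2 : 1 ≤ k ∧ ¬ (j = N ∧ k = 1) := by
      rcases hx' with ⟨h1, h2⟩ | h1
      · exact ⟨h1, fun h3 => h2 (by rw [h3.1, h3.2])⟩
      · exact absurd h1 hx0
    have hx3 : ¬ (j = 1 ∧ k = 1) := fun h3 => hx1 (by rw [h3.1, h3.2])
    show lf j k = 0
    rcases Nat.lt_or_ge j 1 with j0 | j0
    · obtain rfl : j = 0 := by omega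
      by_cases k1 : k = 1
      · subst k1; exact (c_8 hc ht hN hH).1
      by_cases k2 : k = N
      · subst k2; exact (c_8 hc ht hN hH).2.1
      by_cases k3 : k = 2
      · subst k3; exact (c_9 hc ht hN hH).1
      by_cases k4 : k = N + 1
      · subst k4; exact (c_9 hc ht hN hH).2.1
      by_cases k5 : k = 3
      · subst k5; exact (c_10 hc ht hN hH).1
      exact (c_11 hc ht hN hH (by omega : 4 ≤ k) (by omega)).1
    rcases Nat.lt_or_ge j 2 with j1 | j1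
    · obtain rfl : j = 1 := by omega
      by_cases k3 : k = 2
      · subst k3; exact (c_9 hc ht hN hH).2.2
      by_cases k5 : k = 3
      · subst k5; exact (c_10 hc ht hN hH).2.1
      by_cases k2 : k = N
      · subst k2; exact (c_10 hc ht hN hH).2.2
      exact (c_11 hc ht hN hH (by omega : 4 ≤ k) (by omega)).2.1
    obtain ⟨r, rfl⟩ : ∃ r, j = r + 1 := ⟨j - 1, by omega⟩
    by_cases k1 : k = 1
    · subst k1; exact (c_r1 hc ht hN hH (by omega : 1 ≤ r) (by omega)).1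
    by_cases k2 : k ≤ N - 3
    · exact (c_gen hc ht hN hH (by omega : 1 ≤ r) (by omega : 2 ≤ k) k2 (by omega)).1
    by_cases k3 : k = N - 2
    · subst k3
      by_cases r1 : r = 1
      · subst r1; exact (c_3 hc ht hN hH).1
      · obtain rfl : r = 2 := by omega
        exact (c_4 hc ht hN hH).1
    · obtain rfl : k = N - 1 := by omega
      obtain rfl : r = 1 := by omega
      exact c_6 hc hN hH
  have kg : ∀ x ∈ Ig N, x ≠ (1, N - 1) → lg x.1 x.2 = 0 := by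
    rintro ⟨j, k⟩ hx hx0
    simp only [Ig, J, mem_filter, mem_product, mem_range] at hx
    obtain ⟨⟨⟨hj, hk⟩, hjk⟩, hk1, hx'⟩ := hx
    have hx2 : ¬ (j = N - 1 ∧ k = 1) := fun h3 => hx' (by rw [h3.1, h3.2])
    have hx3 : ¬ (j = 1 ∧ k = N - 1) := fun h3 => hx0 (by rw [h3.1, h3.2])
    show lg j k = 0
    rcases Nat.lt_or_ge j 1 with j0 | j0
    · obtain rfl : j = 0 := by omega
      by_cases k1 : k = 1
      · subst k1; exact (c_3 hc ht hN hH).2.1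
      by_cases k2 : k = 2
      · subst k2; exact (c_4 hc ht hN hH).2.2
      by_cases k3 : k = N - 1
      · subst k3; exact (c_11 hc ht hN hH (by omega : 4 ≤ N - 2) (by omega)).2.2 rfl
      by_cases k4 : k = N + 1
      · subst k4; exact (c_3 hc ht hN hH).2.2
      exact c_5 hc hN hH (by omega) (by omega) k3
    rcases Nat.lt_or_ge j 2 with j1 | j1
    · obtain rfl : j = 1 := by omega
      by_cases k1 : k ≤ N - 2
      · exact (c_r1 hc ht hN hH hk1 k1).2.2.1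
      · obtain rfl : k = N := by omega
        exact c_7 hc hN hH
    rcases Nat.lt_or_ge j 3 with j2 | j2
    · obtain rfl : j = 2 := by omega
      by_cases k1 : k ≤ N - 2
      · exact (c_r1 hc ht hN hH hk1 k1).2.1
      · obtain rfl : k = N - 1 := by omega
        exact (c_8 hc ht hN hH).2.2
    by_cases j3 : j = N
    · subst j3
      obtain rfl : k = 1 := by omega
      exact (c_r1 hc ht hN hH le_rfl (by omega)).2.2.2 rfl
    by_cases j4 : j = N - 1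
    · subst j4
      obtain rfl : k = 2 := by omega
      exact (c_4 hc ht hN hH).2.1
    obtain ⟨s, rfl⟩ : ∃ s, j = s + 1 := ⟨j - 1, by omega⟩
    exact (c_gen hc ht hN hH hk1 (by omega : 2 ≤ s) (by omega) (by omega)).2
  -- the last three coefficients
  have m10 : ((1, 0) : ℕ × ℕ) ∈ If N := by
    simp only [If, J, mem_filter, mem_product, mem_range]
    exact ⟨⟨⟨by omega, by omega⟩, by omega⟩, Or.inr trivial⟩
  have m11 : ((1, 1) : ℕ × ℕ) ∈ (If N).erase (1, 0) := by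
    simp only [If, J, mem_filter, mem_product, mem_range, mem_erase]
    refine ⟨by simp, ⟨⟨by omega, by omega⟩, by omega⟩, Or.inl ⟨le_rfl, ?_⟩⟩
    intro h1
    have := congrArg Prod.fst h1
    simp only at this
    omega
  have mg : ((1, N - 1) : ℕ × ℕ) ∈ Ig N := by
    simp only [Ig, J, mem_filter, mem_product, mem_range]
    refine ⟨⟨⟨by omega, by omega⟩, by omega⟩, by omega, ?_⟩
    intro h1
    have := congrArg Prod.fst h1
    simp only at this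
    omega
  have red : ∀ m : ℕ, lf 1 0 * (A N 0 1 1 m * B N 1 0 0 m) + lf 1 1 * (A N 0 1 1 m * B N 1 0 1 m) +
      lg 1 (N - 1) * (A N 1 0 1 m * B N 0 1 (N - 1) m) = 0 := by
    intro m
    have e := h m
    rw [← Finset.add_sum_erase _ _ m10, ← Finset.add_sum_erase _ _ m11,
      Finset.sum_eq_zero (s := ((If N).erase (1, 0)).erase (1, 1)),
      Finset.sum_eq_single_of_mem (1, N - 1) mg] at e
    · have w1 : wf N 0 1 0 m = A N 0 1 1 m * B N 1 0 0 m := by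
        unfold wf; rw [if_neg (by omega), if_neg (by omega)]
      have w2 : wf N 0 1 1 m = A N 0 1 1 m * B N 1 0 1 m := by
        unfold wf; rw [if_neg (by omega), if_neg (by omega)]
      have w3 : wg N 0 1 (N - 1) m = A N 1 0 1 m * B N 0 1 (N - 1) m := by
        unfold wg; rw [if_neg (by omega), if_neg (by omega)]
      simp only at e
      rw [w1, w2, w3] at e
      refine Eq.trans ?_ e
      ring
    · intro x hx hne
      rw [kg x hx hne, zero_mul]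
    · intro x hx
      rw [mem_erase, mem_erase] at hx
      rw [kf x hx.2.2 hx.2.1 hx.1, zero_mul]
  have solr : ∀ p q : ℂ, Rel N p q (sol N p q) := by
    intro p q
    obtain ⟨F, hF, -⟩ := hs ℂ N p q (by omega)
    exact hr ℂ N p q _ (by omega) (Classical.epsilon_spec ⟨F, hF⟩)
  have R1 := solr 0 1
  have R2 := solr 1 0
  have lf10 : lf 1 0 = 0 := by
    have e := red 0
    have a1 : A N 0 1 1 0 = 1 := R1.r9 0
    have b1 : B N 1 0 0 0 = 1 := by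
      have := R2.r7 0
      rw [if_pos rfl] at this; exact this
    have b2 : B N 1 0 1 0 = 0 := R2.r5 1 0 (by omega)
    have b3 : B N 0 1 (N - 1) 0 = 0 := R1.r5 (N - 1) 0 (by omega)
    rw [a1, b1, b2, b3] at e
    simpa using e
  have lf11 : lf 1 1 = 0 := by
    have e := red N
    have a1 : A N 0 1 1 N = -1 := by
      have h2 := R1.r2 0 N
      have h9 := R1.r9 N
      have h7 := R1.r7 N
      rw [if_neg (by omega)] at h7
      rw [h7, zero_mul, one_mul, zero_add, show 1 + N = N + 1 by ring, h9] at h2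
      have h3 : A N 0 1 1 N = aa (sol N 0 1) 1 N := rfl
      rw [h3]
      linear_combination h2
    have b1 : ((N : ℂ) - 1) * B N 1 0 1 N = 1 := by
      have h1 := R2.r1 1 N
      have h6 := R2.r6 N
      rw [show 1 + N - 1 = N by omega, h6] at h1
      have h3 : B N 1 0 1 N = bb (sol N 1 0) 1 N := rfl
      rw [h3]
      simpa using h1
    have b3 : B N 0 1 (N - 1) N = 0 := by
      have h1 := R1.r1 (N - 1) N
      rw [R1.r5 (N - 1 + N) N (by omega)] at h1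
      have h3 : B N 0 1 (N - 1) N = bb (sol N 0 1) (N - 1) N := rfl
      rw [h3]
      have h4 : ((N : ℂ) - (N - 1 : ℕ)) = 1 := by
        rw [Nat.cast_sub (by omega)]; push_cast; ring
      rw [h4] at h1
      simpa using h1
    have hne : B N 1 0 1 N ≠ 0 := fun h0 => by rw [h0, mul_zero] at b1; exact zero_ne_one b1
    rw [lf10, a1, b3] at e
    have e2 : lf 1 1 * B N 1 0 1 N = 0 := by linear_combination -e
    exact (mul_eq_zero.1 e2).resolve_right hne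
  have lg1 : lg 1 (N - 1) = 0 := by
    have e := red (N - 1)
    have a1 : A N 1 0 1 (N - 1) = -1 := by
      have h2 := R2.r2 0 (N - 1)
      have h9 := R2.r9 (N - 1)
      have h7 := R2.r7 (N - 1)
      rw [if_neg (by omega)] at h7
      rw [show N - 1 + 1 = N by omega] at h9
      rw [h7, zero_mul, one_mul, zero_add, zero_add, h9] at h2
      have h3 : A N 1 0 1 (N - 1) = aa (sol N 1 0) 1 (N - 1) := rfl
      rw [h3]
      linear_combination h2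
    have b3 : B N 0 1 (N - 1) (N - 1) = 1 := R1.r6 (N - 1)
    rw [lf10, lf11, a1, b3] at e
    linear_combination -e
  constructor
  · intro x hx
    by_cases h1 : x = (1, 0)
    · rw [h1]; exact lf10
    by_cases h2 : x = (1, 1)
    · rw [h2]; exact lf11
    exact kf x hx h1 h2
  · intro x hx
    by_cases h1 : x = (1, N - 1)
    · rw [h1]; exact lg1
    exact kg x hx h1

end Pool.Agent.Y931.LC
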